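import Mathlib

/-!
Spaces with a single non-isolated point, given by an ideal of small sets.
-/

set_option autoImplicit false

namespace Pool.Agent.H77.UEq

open Set Topology Filter

/-- An ideal of subsets of `I` containing the singletons. -/
structure Idl (I : Type) where
  small : Set I → Prop
  mono : ∀ {A B : Set I}, A ⊆ B → small B → small A
  union : ∀ {A B : Set I}, small A → small B → small (A ∪ B)
  sing : ∀ a, small {a}
  empty : small ∅

/-- The space `I ∪ {∞}`. -/
inductive Sp {I : Type} (J : Idl I) : Type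
  | inf : Sp J
  | pt : I → Sp J

variable {I : Type} (J : Idl I)

theorem pt_inj {x y : I} (h : (Sp.pt x : Sp J) = Sp.pt y) : x = y := by
  injection h

instance Sp.top : TopologicalSpace (Sp J) where
  IsOpen U := Sp.inf ∈ U → J.small {x | Sp.pt x ∉ U}
  isOpen_univ := fun _ => J.mono (by intro x hx; exact (hx trivial).elim) J.empty
  isOpen_inter := by
    intro s t hs ht h
    refine J.mono ?_ (J.union (hs h.1) (ht h.2))
    intro x hx
    by_cases h1 : Sp.pt x ∈ s
    · right; intro h2; exact hx ⟨h1, h2⟩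
    · left; exact h1
  isOpen_sUnion := by
    intro S hS h
    obtain ⟨U, hU, hn⟩ := h
    refine J.mono ?_ (hS U hU hn)
    intro x hx hxU
    exact hx ⟨U, hU, hxU⟩

theorem isOpen_iff (U : Set (Sp J)) :
    IsOpen U ↔ (Sp.inf ∈ U → J.small {x | Sp.pt x ∉ U}) := Iff.rfl

theorem isOpen_of_not_mem {U : Set (Sp J)} (h : Sp.inf ∉ U) : IsOpen U :=
  fun h' => (h h').elim

theorem isClosed_of_mem {U : Set (Sp J)} (h : Sp.inf ∈ U) : IsClosed U :=
  ⟨isOpen_of_not_mem J (fun h' => h' h)⟩

theorem isClosed_iff (U : Set (Sp J)) (h : Sp.inf ∉ U) :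
    IsClosed U ↔ J.small {x | Sp.pt x ∈ U} := by
  rw [← isOpen_compl_iff, isOpen_iff]
  constructor
  · intro h1
    refine J.mono ?_ (h1 h)
    intro x hx hx'
    exact hx' hx
  · intro h1 _
    refine J.mono ?_ h1
    intro x hx
    by_contra h2
    exact hx h2

instance : T1Space (Sp J) where
  t1 := by
    intro x
    rcases x with _ | a
    · exact isClosed_of_mem J rfl
    · rw [isClosed_iff J _ (by simp)]
      refine J.mono ?_ (J.sing a)
      intro y hy
      exact pt_inj J hy

instance : NormalSpace (Sp J) where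
  normal := by
    intro s t hs ht hst
    have key : ∀ A B : Set (Sp J), IsClosed A → IsClosed B → Disjoint A B →
        Sp.inf ∉ A → SeparatedNhds A B := by
      intro A B hA hB hAB hn
      exact ⟨A, Aᶜ, isOpen_of_not_mem J hn, hA.isOpen_compl, subset_rfl,
        hAB.symm.subset_compl_right, disjoint_compl_right⟩
    by_cases h : Sp.inf ∈ s
    · have h' : Sp.inf ∉ t := fun h' => (Set.disjoint_left.1 hst h) h'
      exact (key t s ht hs hst.symm h').symm
    · exact key s t hs ht hst h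

instance : T4Space (Sp J) where

theorem continuous_iff (f : Sp J → ℝ) :
    Continuous f ↔ ∀ ε > 0, J.small {x | ε ≤ |f (Sp.pt x) - f Sp.inf|} := by
  constructor
  · intro hf ε hε
    have h1 : IsOpen (f ⁻¹' Metric.ball (f Sp.inf) ε) := Metric.isOpen_ball.preimage hf
    refine J.mono ?_ (h1 (Metric.mem_ball_self hε))
    intro x hx hx'
    have h2 : |f (Sp.pt x) - f Sp.inf| < ε := by
      have := hx'
      rw [mem_preimage, Metric.mem_ball, Real.dist_eq] at this
      exact this
    exact absurd h2 (not_lt.2 hx)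
  · intro h
    rw [continuous_def]
    intro V hV hn
    obtain ⟨ε, hε, hV'⟩ := Metric.isOpen_iff.1 hV _ hn
    refine J.mono ?_ (h ε hε)
    intro x hx
    by_contra h2
    apply hx
    apply hV'
    rw [Metric.mem_ball, Real.dist_eq]
    exact not_le.1 h2

/-- A compact set contains no infinite small set. -/
theorem finite_of_small {C : Set (Sp J)} (hC : IsCompact C) {A : Set I} (hA : J.small A)
    (hAC : ∀ a ∈ A, Sp.pt a ∈ C) : A.Finite := by
  have hn : Sp.inf ∉ (Sp.pt '' A : Set (Sp J)) := by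
    rintro ⟨a, _, h⟩
    exact absurd h (by simp)
  have hcl : IsClosed (Sp.pt '' A : Set (Sp J)) := by
    rw [isClosed_iff J _ hn]
    refine J.mono ?_ hA
    rintro x ⟨a, ha, h⟩
    rw [← pt_inj J h]; exact ha
  have hcomp : IsCompact (Sp.pt '' A : Set (Sp J)) := by
    refine hC.of_isClosed_subset hcl ?_
    rintro _ ⟨a, ha, rfl⟩
    exact hAC a ha
  obtain ⟨t, ht⟩ := hcomp.elim_finite_subcover (fun a : I => ({Sp.pt a} : Set (Sp J)))
    (fun a => isOpen_of_not_mem J (by simp))
    (by
      rintro _ ⟨a, _, rfl⟩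
      exact mem_iUnion.2 ⟨a, rfl⟩)
  refine t.finite_toSet.subset ?_
  intro a ha
  have := ht ⟨a, ha, rfl⟩
  simp only [mem_iUnion, mem_singleton_iff, exists_prop] at this
  obtain ⟨b, hb, hab⟩ := this
  rw [pt_inj J hab]
  exact hb

/-- A sufficient criterion for compactness. -/
theorem isCompact_of (C : Set (Sp J)) (hn : Sp.inf ∈ C)
    (h : ∀ A : Set I, J.small A → (∀ a ∈ A, Sp.pt a ∈ C) → A.Finite) :
    IsCompact C := by
  rw [isCompact_iff_finite_subcover]
  intro ι U hU hCU
  obtain ⟨i0, hi0⟩ := mem_iUnion.1 (hCU hn)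
  have h1 : J.small {x | Sp.pt x ∉ U i0} := hU i0 hi0
  have h2 : {x | Sp.pt x ∉ U i0 ∧ Sp.pt x ∈ C}.Finite :=
    h _ (J.mono (fun x hx => hx.1) h1) (fun a ha => ha.2)
  have h3 : ∀ x : I, ∃ i, Sp.pt x ∈ C → Sp.pt x ∈ U i := by
    intro x
    by_cases hx : Sp.pt x ∈ C
    · obtain ⟨i, hi⟩ := mem_iUnion.1 (hCU hx)
      exact ⟨i, fun _ => hi⟩
    · exact ⟨i0, fun h => (hx h).elim⟩
  choose g hg using h3
  classical
  refine ⟨insert i0 (h2.toFinset.image g), ?_⟩
  intro y hy
  rcases y with _ | x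
  · exact mem_iUnion₂.2 ⟨i0, Finset.mem_insert_self _ _, hi0⟩
  · by_cases hx : Sp.pt x ∈ U i0
    · exact mem_iUnion₂.2 ⟨i0, Finset.mem_insert_self _ _, hx⟩
    · refine mem_iUnion₂.2 ⟨g x, Finset.mem_insert_of_mem (Finset.mem_image.2 ⟨x, ?_, rfl⟩), hg x hy⟩
      rw [Set.Finite.mem_toFinset]
      exact ⟨hx, hy⟩

end Pool.Agent.H77.UEq
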