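import Mathlib

/-!
Soft thresholding at the `(k+1)`-st largest absolute value.
-/

set_option autoImplicit false

namespace Pool.Agent.H77.UEq

open Set Topology Filter

/-- Indices `i < j` with `|x i| > t`. -/
noncomputable def big (x : ℕ → ℝ) (j : ℕ) (t : ℝ) : Finset ℕ :=
  (Finset.range j).filter (fun i => t < |x i|)

/-- The least `t ≥ 0` such that at most `k` of the numbers `|x i|`, `i < j`, exceed `t`. -/
noncomputable def thr (j k : ℕ) (x : ℕ → ℝ) : ℝ :=
  sInf {t : ℝ | 0 ≤ t ∧ (big x j t).card ≤ k}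

theorem mem_big {x : ℕ → ℝ} {j : ℕ} {t : ℝ} {i : ℕ} : i ∈ big x j t ↔ i < j ∧ t < |x i| := by
  simp [big]

theorem thr_bdd (j k : ℕ) (x : ℕ → ℝ) :
    BddBelow {t : ℝ | 0 ≤ t ∧ (big x j t).card ≤ k} := ⟨0, fun _ h => h.1⟩

theorem thr_ne (j k : ℕ) (x : ℕ → ℝ) :
    {t : ℝ | 0 ≤ t ∧ (big x j t).card ≤ k}.Nonempty := by
  refine ⟨∑ i ∈ Finset.range j, |x i|, Finset.sum_nonneg (fun i _ => abs_nonneg _), ?_⟩
  have : big x j (∑ i ∈ Finset.range j, |x i|) = ∅ := by
    rw [Finset.eq_empty_iff_forall_notMem]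
    intro i hi
    rw [mem_big] at hi
    have h1 : |x i| ≤ ∑ i ∈ Finset.range j, |x i| :=
      Finset.single_le_sum (f := fun i => |x i|) (fun i _ => abs_nonneg _)
        (Finset.mem_range.2 hi.1)
    linarith [hi.2]
  rw [this]; simp

theorem thr_nonneg (j k : ℕ) (x : ℕ → ℝ) : 0 ≤ thr j k x :=
  le_csInf (thr_ne j k x) (fun _ h => h.1)

theorem thr_le {j k : ℕ} {x : ℕ → ℝ} {t : ℝ} (h0 : 0 ≤ t) (h : (big x j t).card ≤ k) :
    thr j k x ≤ t := csInf_le (thr_bdd j k x) ⟨h0, h⟩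

theorem card_big_thr (j k : ℕ) (x : ℕ → ℝ) : (big x j (thr j k x)).card ≤ k := by
  have h1 : ∀ i, ∃ t, (0 ≤ t ∧ (big x j t).card ≤ k) ∧ (thr j k x < |x i| → t < |x i|) := by
    intro i
    by_cases h : thr j k x < |x i|
    · obtain ⟨t, ht, htx⟩ := exists_lt_of_csInf_lt (thr_ne j k x) h
      exact ⟨t, ht, fun _ => htx⟩
    · obtain ⟨t, ht⟩ := thr_ne j k x
      exact ⟨t, ht, fun h' => (h h').elim⟩
  choose t ht htx using h1
  by_cases hj : (Finset.range j).Nonempty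
  · obtain ⟨i0, hi0, hmin⟩ := Finset.exists_min_image (Finset.range j) t hj
    refine le_trans (Finset.card_le_card ?_) (ht i0).2
    intro i hi
    rw [mem_big] at hi ⊢
    exact ⟨hi.1, lt_of_le_of_lt (hmin i (Finset.mem_range.2 hi.1)) (htx i hi.2)⟩
  · rw [Finset.not_nonempty_iff_eq_empty] at hj
    simp [big, hj]

theorem thr_lip {j k : ℕ} {x y : ℕ → ℝ} {δ : ℝ} (hδ : 0 ≤ δ) (h : ∀ i < j, |x i - y i| ≤ δ) :
    thr j k y ≤ thr j k x + δ := by
  refine thr_le (add_nonneg (thr_nonneg j k x) hδ) ?_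
  refine le_trans (Finset.card_le_card ?_) (card_big_thr j k x)
  intro i hi
  rw [mem_big] at hi ⊢
  refine ⟨hi.1, ?_⟩
  have h1 := h i hi.1
  have h2 : |y i| ≤ |x i| + |x i - y i| := by
    have : y i = x i - (x i - y i) := by ring
    calc |y i| = |x i - (x i - y i)| := by rw [← this]
      _ ≤ |x i| + |x i - y i| := abs_sub _ _
  linarith [hi.2]

theorem thr_lip' {j k : ℕ} {x y : ℕ → ℝ} {δ : ℝ} (hδ : 0 ≤ δ) (h : ∀ i < j, |x i - y i| ≤ δ) :
    |thr j k x - thr j k y| ≤ δ := by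
  have h1 := thr_lip (k := k) hδ h
  have h2 := thr_lip (k := k) hδ (x := y) (y := x) (fun i hi => by rw [abs_sub_comm]; exact h i hi)
  rw [abs_le]; constructor <;> linarith

/-- clamp to `[-t,t]` -/
noncomputable def clamp (x t : ℝ) : ℝ := max (-t) (min x t)

theorem abs_clamp_le {x t : ℝ} (ht : 0 ≤ t) : |clamp x t| ≤ t := by
  unfold clamp
  rw [abs_le]
  constructor
  · exact le_max_left _ _
  · exact max_le (by linarith) (min_le_right _ _)

theorem clamp_eq_self {x t : ℝ} (h : |x| ≤ t) : clamp x t = x := by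
  unfold clamp
  rw [abs_le] at h
  rw [min_eq_left h.2, max_eq_right h.1]

theorem clamp_lip {x y s t δ : ℝ} (hxy : |x - y| ≤ δ) (hst : |s - t| ≤ δ) :
    |clamp x s - clamp y t| ≤ δ := by
  have h1 : |min x s - min y t| ≤ max |x - y| |s - t| := abs_min_sub_min_le_max _ _ _ _
  have h2 : |max (-s) (min x s) - max (-t) (min y t)| ≤ max |(-s) - (-t)| |min x s - min y t| :=
    abs_max_sub_max_le_max _ _ _ _
  have h3 : |(-s) - (-t)| = |s - t| := by
    rw [← abs_neg]; congr 1; ring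
  unfold clamp
  rw [h3] at h2
  refine h2.trans (max_le hst (h1.trans (max_le hxy hst)))

/-- soft thresholding -/
noncomputable def R (j k : ℕ) (x : ℕ → ℝ) (i : ℕ) : ℝ :=
  if i < j then x i - clamp (x i) (thr j k x) else 0

theorem abs_sub_R {j k : ℕ} {x : ℕ → ℝ} {i : ℕ} (hi : i < j) :
    |x i - R j k x i| ≤ thr j k x := by
  unfold R
  rw [if_pos hi, sub_sub_cancel]
  exact abs_clamp_le (thr_nonneg _ _ _)

theorem R_of_not_lt {j k : ℕ} {x : ℕ → ℝ} {i : ℕ} (hi : ¬ i < j) : R j k x i = 0 := by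
  unfold R
  rw [if_neg hi]

/-- number of nonzero coordinates `i < j` -/
noncomputable def supp (x : ℕ → ℝ) (j : ℕ) : Finset ℕ :=
  (Finset.range j).filter (fun i => x i ≠ 0)

theorem card_supp_R (j k : ℕ) (x : ℕ → ℝ) : (supp (R j k x) j).card ≤ k := by
  refine le_trans (Finset.card_le_card ?_) (card_big_thr j k x)
  intro i hi
  unfold supp at hi
  rw [Finset.mem_filter, Finset.mem_range] at hi
  rw [mem_big]
  refine ⟨hi.1, ?_⟩
  by_contra h
  apply hi.2
  unfold R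
  rw [if_pos hi.1, clamp_eq_self (not_lt.1 h), sub_self]

theorem R_eq_self {j k : ℕ} {x : ℕ → ℝ} (h : (supp x j).card ≤ k) {i : ℕ} (hi : i < j) :
    R j k x i = x i := by
  have h1 : thr j k x ≤ 0 := by
    refine thr_le le_rfl (le_trans (Finset.card_le_card ?_) h)
    intro l hl
    rw [mem_big] at hl
    unfold supp
    rw [Finset.mem_filter, Finset.mem_range]
    exact ⟨hl.1, abs_pos.1 hl.2⟩
  have h2 : |x i - R j k x i| ≤ 0 := (abs_sub_R hi).trans h1
  have h3 : x i - R j k x i = 0 := abs_nonpos_iff.1 h2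
  linarith

theorem R_lip {j k : ℕ} {x y : ℕ → ℝ} {δ : ℝ} (hδ : 0 ≤ δ) (h : ∀ i < j, |x i - y i| ≤ δ)
    (i : ℕ) : |R j k x i - R j k y i| ≤ 2 * δ := by
  unfold R
  split_ifs with hi
  · have h1 : |clamp (x i) (thr j k x) - clamp (y i) (thr j k y)| ≤ δ :=
      clamp_lip (h i hi) (thr_lip' hδ h)
    have h2 := h i hi
    rw [abs_le] at h1 h2 ⊢
    constructor <;> linarith [h1.1, h1.2, h2.1, h2.2]
  · simp; linarith

theorem uc_R (j k i : ℕ) : UniformContinuous (fun x : ℕ → ℝ => R j k x i) := by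
  unfold UniformContinuous
  refine Metric.uniformity_basis_dist.tendsto_right_iff.2 ?_
  intro ε hε
  have h1 : ∀ᶠ p : (ℕ → ℝ) × (ℕ → ℝ) in uniformity (ℕ → ℝ), ∀ l ∈ Finset.range j,
      |p.1 l - p.2 l| < ε / 3 := by
    rw [Filter.eventually_all_finset]
    intro l _
    have h2 : UniformContinuous (fun x : ℕ → ℝ => x l) := Pi.uniformContinuous_proj _ l
    have h3 := Metric.uniformity_basis_dist.tendsto_right_iff.1 h2 (ε / 3) (by linarith)
    refine h3.mono ?_
    intro p hp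
    exact hp
  refine h1.mono ?_
  intro p hp
  have h4 := R_lip (k := k) (x := p.1) (y := p.2) (δ := ε / 3) (by linarith)
    (fun l hl => (hp l (Finset.mem_range.2 hl)).le) i
  change dist (R j k p.1 i) (R j k p.2 i) < ε
  rw [Real.dist_eq]
  linarith

end Pool.Agent.H77.UEq
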