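import Mathlib
import Pool.Agent.H77.UEq.Space
import Pool.Agent.H77.UEq.Thresh

/-!
The nonlinear uniform homeomorphism.
-/

set_option autoImplicit false

namespace Pool.Agent.H77.UEq

open Set Topology Filter

/-- The index set. -/
abbrev T3 : Type := ℕ × ℕ × ℕ

/-- Sparsity level. -/
def kk (j n : ℕ) : ℕ := j / 2 ^ (n + 1)

theorem kk_anti {j n m : ℕ} (h : n ≤ m) : kk j m ≤ kk j n := by
  unfold kk
  exact Nat.div_le_div_left (Nat.pow_le_pow_right (by norm_num) (by omega)) (by positivity)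

/-- Partial sums over the layers. -/
def cum (g : T3 → ℝ) (j n : ℕ) : ℕ → ℝ := fun i => ∑ m ∈ Finset.range (n + 1), g (j, m, i)

theorem cum_succ (g : T3 → ℝ) (j n i : ℕ) : cum g j (n + 1) i = cum g j n i + g (j, n + 1, i) := by
  unfold cum
  rw [Finset.sum_range_succ]

theorem cum_zero (g : T3 → ℝ) (j i : ℕ) : cum g j 0 i = g (j, 0, i) := by
  unfold cum
  rw [Finset.sum_range_succ, Finset.sum_range_zero, zero_add]

/-- The forward map. -/
noncomputable def fwd (g : T3 → ℝ) : T3 → ℝ := fun x =>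
  if x.2.1 < x.1 then cum g x.1 x.2.1 x.2.2 - R x.1 (kk x.1 x.2.1) (cum g x.1 (x.2.1 + 1)) x.2.2
  else cum g x.1 x.2.1 x.2.2

/-- The backward recursion. -/
noncomputable def up (f : T3 → ℝ) (j : ℕ) : ℕ → ℕ → (ℕ → ℝ)
  | 0, n => fun i => f (j, n, i)
  | d + 1, n => fun i => f (j, n, i) + R j (kk j n) (up f j d (n + 1)) i

/-- The recovered partial sums. -/
noncomputable def U (f : T3 → ℝ) (j n : ℕ) : ℕ → ℝ := up f j (j - n) n

theorem U_of_lt (f : T3 → ℝ) {j n : ℕ} (h : n < j) (i : ℕ) :
    U f j n i = f (j, n, i) + R j (kk j n) (U f j (n + 1)) i := by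
  unfold U
  have : j - n = (j - (n + 1)) + 1 := by omega
  rw [this, up]

theorem U_of_not_lt (f : T3 → ℝ) {j n : ℕ} (h : ¬ n < j) (i : ℕ) :
    U f j n i = f (j, n, i) := by
  unfold U
  have : j - n = 0 := by omega
  rw [this, up]

/-- The backward map. -/
noncomputable def bwd (f : T3 → ℝ) : T3 → ℝ := fun x =>
  if x.2.1 = 0 then U f x.1 0 x.2.2 else U f x.1 x.2.1 x.2.2 - U f x.1 (x.2.1 - 1) x.2.2

theorem fwd_of_lt (g : T3 → ℝ) {j n : ℕ} (h : n < j) (i : ℕ) :
    fwd g (j, n, i) = cum g j n i - R j (kk j n) (cum g j (n + 1)) i := by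
  unfold fwd; exact if_pos h

theorem fwd_of_not_lt (g : T3 → ℝ) {j n : ℕ} (h : ¬ n < j) (i : ℕ) :
    fwd g (j, n, i) = cum g j n i := by
  unfold fwd; exact if_neg h

theorem bwd_zero (f : T3 → ℝ) (j i : ℕ) : bwd f (j, 0, i) = U f j 0 i := by
  unfold bwd; exact if_pos rfl

theorem bwd_succ (f : T3 → ℝ) (j n i : ℕ) :
    bwd f (j, n + 1, i) = U f j (n + 1) i - U f j n i := by
  unfold bwd; exact if_neg (Nat.succ_ne_zero n)

theorem U_fwd (g : T3 → ℝ) (j : ℕ) : ∀ d n, j - n = d → U (fwd g) j n = cum g j n := by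
  intro d
  induction d with
  | zero =>
    intro n hn
    funext i
    rw [U_of_not_lt _ (by omega), fwd_of_not_lt _ (by omega)]
  | succ d ih =>
    intro n hn
    funext i
    rw [U_of_lt _ (by omega), fwd_of_lt _ (by omega), ih (n + 1) (by omega)]
    ring

theorem cum_bwd (f : T3 → ℝ) (j n : ℕ) : cum (bwd f) j n = U f j n := by
  induction n with
  | zero =>
    funext i
    rw [cum_zero, bwd_zero]
  | succ n ih =>
    funext i
    rw [cum_succ, bwd_succ, ih]
    ring

theorem bwd_fwd (g : T3 → ℝ) : bwd (fwd g) = g := by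
  funext x
  obtain ⟨j, n, i⟩ := x
  rcases n with _ | n
  · rw [bwd_zero, U_fwd g j _ 0 rfl, cum_zero]
  · rw [bwd_succ, U_fwd g j _ _ rfl, U_fwd g j _ _ rfl, cum_succ]
    ring

theorem fwd_bwd (f : T3 → ℝ) : fwd (bwd f) = f := by
  funext x
  obtain ⟨j, n, i⟩ := x
  by_cases h : n < j
  · rw [fwd_of_lt _ h, cum_bwd, cum_bwd, U_of_lt f h]
    ring
  · rw [fwd_of_not_lt _ h, cum_bwd, U_of_not_lt f h]

/-! ### uniform continuity -/

theorem uc_eval (x : T3) : UniformContinuous (fun g : T3 → ℝ => g x) :=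
  Pi.uniformContinuous_proj _ x

theorem uc_cum (j n i : ℕ) : UniformContinuous (fun g : T3 → ℝ => cum g j n i) := by
  induction n with
  | zero =>
    simp_rw [cum_zero]
    exact uc_eval _
  | succ n ih =>
    simp_rw [cum_succ]
    exact ih.add (uc_eval _)

theorem uc_cum' (j n : ℕ) : UniformContinuous (fun g : T3 → ℝ => cum g j n) :=
  uniformContinuous_pi.2 (fun i => uc_cum j n i)

theorem uc_fwd : UniformContinuous fwd := by
  refine uniformContinuous_pi.2 ?_
  rintro ⟨j, n, i⟩
  by_cases h : n < j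
  · simp_rw [fwd_of_lt _ h]
    exact (uc_cum j n i).sub ((uc_R j (kk j n) i).comp (uc_cum' j (n + 1)))
  · simp_rw [fwd_of_not_lt _ h]
    exact uc_cum j n i

theorem uc_up (j : ℕ) : ∀ d n, UniformContinuous (fun f : T3 → ℝ => up f j d n) := by
  intro d
  induction d with
  | zero =>
    intro n
    refine uniformContinuous_pi.2 (fun i => ?_)
    exact uc_eval (j, n, i)
  | succ d ih =>
    intro n
    refine uniformContinuous_pi.2 (fun i => ?_)
    exact (uc_eval (j, n, i)).add ((uc_R j (kk j n) i).comp (ih (n + 1)))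

theorem uc_U (j n i : ℕ) : UniformContinuous (fun f : T3 → ℝ => U f j n i) :=
  (Pi.uniformContinuous_proj _ i).comp (uc_up j (j - n) n)

theorem uc_bwd : UniformContinuous bwd := by
  refine uniformContinuous_pi.2 ?_
  rintro ⟨j, n, i⟩
  rcases n with _ | n
  · simp_rw [bwd_zero]
    exact uc_U j 0 i
  · simp_rw [bwd_succ]
    exact (uc_U j (n + 1) i).sub (uc_U j n i)

/-! ### blockwise uniform convergence to zero -/

/-- `sup_{i<j} |a j i| → 0`. -/
def TZ (a : ℕ → ℕ → ℝ) : Prop := ∀ ε : ℝ, 0 < ε → ∀ᶠ j in atTop, ∀ i < j, |a j i| < ε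

theorem TZ.add {a b : ℕ → ℕ → ℝ} (ha : TZ a) (hb : TZ b) : TZ (fun j i => a j i + b j i) := by
  intro ε hε
  filter_upwards [ha (ε / 2) (by linarith), hb (ε / 2) (by linarith)] with j h1 h2 i hi
  have := abs_add_le (a j i) (b j i)
  linarith [h1 i hi, h2 i hi]

theorem TZ.sub {a b : ℕ → ℕ → ℝ} (ha : TZ a) (hb : TZ b) : TZ (fun j i => a j i - b j i) := by
  intro ε hε
  filter_upwards [ha (ε / 2) (by linarith), hb (ε / 2) (by linarith)] with j h1 h2 i hi
  have := abs_sub (a j i) (b j i)
  linarith [h1 i hi, h2 i hi]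

theorem TZ.congr {a b : ℕ → ℕ → ℝ} (ha : TZ a) (h : ∀ᶠ j in atTop, ∀ i < j, a j i = b j i) :
    TZ b := by
  intro ε hε
  filter_upwards [ha ε hε, h] with j h1 h2 i hi
  rw [← h2 i hi]
  exact h1 i hi

theorem TZ.R {a b : ℕ → ℕ → ℝ} (k : ℕ → ℕ) (h : TZ (fun j i => a j i - b j i)) :
    TZ (fun j i => R j (k j) (a j) i - R j (k j) (b j) i) := by
  intro ε hε
  filter_upwards [h (ε / 3) (by linarith)] with j h1 i hi
  have := R_lip (k := k j) (x := a j) (y := b j) (δ := ε / 3) (by linarith)
    (fun l hl => (h1 l hl).le) i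
  linarith

theorem TZ.neg {a b : ℕ → ℕ → ℝ} (h : TZ (fun j i => a j i - b j i)) :
    TZ (fun j i => b j i - a j i) := by
  intro ε hε
  filter_upwards [h ε hε] with j h1 i hi
  rw [abs_sub_comm]
  exact h1 i hi

/-! ### the two ideals -/

/-- The ideal defining `X`. -/
def JX : Idl T3 where
  small A := ∀ n, ∀ᶠ j in atTop, ∀ i < j, (j, n, i) ∉ A
  mono := by
    intro A B hAB hB n
    filter_upwards [hB n] with j h i hi hA
    exact h i hi (hAB hA)
  union := by
    intro A B hA hB n
    filter_upwards [hA n, hB n] with j h1 h2 i hi hAB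
    rcases hAB with h | h
    · exact h1 i hi h
    · exact h2 i hi h
  sing := by
    rintro ⟨a, b, c⟩ n
    filter_upwards [eventually_gt_atTop a] with j h i hi h'
    rw [mem_singleton_iff, Prod.mk.injEq] at h'
    omega
  empty := by
    intro n
    exact Eventually.of_forall (fun j i _ h => h)

open Classical in
/-- The `i < j` with `(j,0,i) ∈ A`. -/
noncomputable def cset (A : Set T3) (j : ℕ) : Finset ℕ :=
  (Finset.range j).filter (fun i => (j, 0, i) ∈ A)

theorem mem_cset {A : Set T3} {j i : ℕ} : i ∈ cset A j ↔ i < j ∧ (j, 0, i) ∈ A := by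
  classical
  unfold cset
  rw [Finset.mem_filter, Finset.mem_range]

/-- Number of `i < j` with `(j,0,i) ∈ A`. -/
noncomputable def cnt (A : Set T3) (j : ℕ) : ℕ := (cset A j).card

theorem cnt_mono {A B : Set T3} (h : A ⊆ B) (j : ℕ) : cnt A j ≤ cnt B j := by
  refine Finset.card_le_card ?_
  intro i hi
  rw [mem_cset] at hi ⊢
  exact ⟨hi.1, h hi.2⟩

theorem cnt_union (A B : Set T3) (j : ℕ) : cnt (A ∪ B) j ≤ cnt A j + cnt B j := by
  classical
  refine le_trans (Finset.card_le_card ?_) (Finset.card_union_le _ _)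
  intro i hi
  rw [mem_cset] at hi
  rw [Finset.mem_union, mem_cset, mem_cset]
  rcases hi.2 with h | h
  · exact Or.inl ⟨hi.1, h⟩
  · exact Or.inr ⟨hi.1, h⟩

/-- The ideal defining `Y`. -/
noncomputable def JY : Idl T3 where
  small A := (∀ n, ∀ᶠ j in atTop, ∀ i < j, (j, n + 1, i) ∉ A) ∧
    ∀ m, ∀ᶠ j in atTop, 2 ^ m * cnt A j ≤ j
  mono := by
    intro A B hAB hB
    refine ⟨fun n => ?_, fun m => ?_⟩
    · filter_upwards [hB.1 n] with j h i hi hA
      exact h i hi (hAB hA)
    · filter_upwards [hB.2 m] with j h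
      exact le_trans (Nat.mul_le_mul_left _ (cnt_mono hAB j)) h
  union := by
    intro A B hA hB
    refine ⟨fun n => ?_, fun m => ?_⟩
    · filter_upwards [hA.1 n, hB.1 n] with j h1 h2 i hi hAB
      rcases hAB with h | h
      · exact h1 i hi h
      · exact h2 i hi h
    · filter_upwards [hA.2 (m + 1), hB.2 (m + 1)] with j h1 h2
      have h3 := Nat.mul_le_mul_left (2 ^ m) (cnt_union A B j)
      rw [pow_succ] at h1 h2
      nlinarith
  sing := by
    rintro ⟨a, b, c⟩
    refine ⟨fun n => ?_, fun m => ?_⟩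
    · filter_upwards [eventually_gt_atTop a] with j h i hi h'
      rw [mem_singleton_iff, Prod.mk.injEq] at h'
      omega
    · filter_upwards [eventually_gt_atTop a] with j h
      have : cnt {(a, b, c)} j = 0 := by
        unfold cnt
        rw [Finset.card_eq_zero, Finset.eq_empty_iff_forall_notMem]
        intro i h'
        rw [mem_cset, mem_singleton_iff, Prod.mk.injEq] at h'
        omega
      rw [this]; simp
  empty := by
    refine ⟨fun n => Eventually.of_forall (fun j i _ h => h), fun m => ?_⟩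
    refine Eventually.of_forall (fun j => ?_)
    have : cnt ∅ j = 0 := by
      unfold cnt
      rw [Finset.card_eq_zero, Finset.eq_empty_iff_forall_notMem]
      intro i h'
      rw [mem_cset] at h'
      exact h'.2
    rw [this]; simp

/-! ### characterisations of the `C₀` spaces -/

theorem c0X_iff (f : T3 → ℝ) :
    (∀ ε > 0, JX.small {x | ε ≤ |f x|}) ↔ ∀ n, TZ (fun j i => f (j, n, i)) := by
  constructor
  · intro h n ε hε
    filter_upwards [h ε hε n] with j h1 i hi
    exact not_le.1 (h1 i hi)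
  · intro h ε hε n
    filter_upwards [h n ε hε] with j h1 i hi h2
    exact absurd (h1 i hi) (not_lt.2 h2)

theorem c0Y_iff (g : T3 → ℝ) :
    (∀ ε > 0, JY.small {x | ε ≤ |g x|}) ↔ (∀ n, TZ (fun j i => g (j, n + 1, i))) ∧
      ∀ ε : ℝ, 0 < ε → ∀ m, ∀ᶠ j in atTop, 2 ^ m * cnt {x | ε ≤ |g x|} j ≤ j := by
  constructor
  · intro h
    refine ⟨fun n ε hε => ?_, fun ε hε => (h ε hε).2⟩
    filter_upwards [(h ε hε).1 n] with j h1 i hi
    exact not_le.1 (h1 i hi)
  · intro h ε hε
    refine ⟨fun n => ?_, h.2 ε hε⟩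
    filter_upwards [h.1 n ε hε] with j h1 i hi h2
    exact absurd (h1 i hi) (not_lt.2 h2)

theorem fwd_c0 {g : T3 → ℝ} (h : ∀ ε > 0, JY.small {x | ε ≤ |g x|}) :
    ∀ ε > 0, JX.small {x | ε ≤ |fwd g x|} := by
  rw [c0Y_iff] at h
  rw [c0X_iff]
  obtain ⟨h1, h2⟩ := h
  have hc : ∀ n, TZ (fun j i => cum g j n i - cum g j 0 i) := by
    intro n
    induction n with
    | zero =>
      intro ε hε
      refine Eventually.of_forall (fun j i _ => ?_)
      change |cum g j 0 i - cum g j 0 i| < ε
      rw [sub_self, abs_zero]; exact hε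
    | succ n ih =>
      refine (ih.add (h1 n)).congr (Eventually.of_forall (fun j i _ => ?_))
      rw [cum_succ]; ring
  have ht : ∀ n, TZ (fun j i => cum g j 0 i - R j (kk j n) (cum g j 0) i) := by
    intro n ε hε
    filter_upwards [h2 (ε / 2) (by linarith) (n + 1)] with j h3 i hi
    have h4 : thr j (kk j n) (cum g j 0) ≤ ε / 2 := by
      refine thr_le (by linarith) ?_
      have h5 : cnt {x | ε / 2 ≤ |g x|} j ≤ kk j n := by
        unfold kk
        rw [Nat.le_div_iff_mul_le (by positivity)]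
        rw [mul_comm]; exact h3
      refine le_trans ?_ h5
      refine Finset.card_le_card ?_
      intro l hl
      rw [mem_big] at hl
      rw [mem_cset]
      refine ⟨hl.1, ?_⟩
      have h6 := hl.2
      rw [cum_zero] at h6
      exact h6.le
    have h5 := abs_sub_R (k := kk j n) (x := cum g j 0) hi
    linarith
  intro n
  have h3 : TZ (fun j i => R j (kk j n) (cum g j (n + 1)) i - R j (kk j n) (cum g j 0) i) :=
    TZ.R (a := fun j => cum g j (n + 1)) (b := fun j => cum g j 0) (fun j => kk j n) (hc (n + 1))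
  refine (((hc n).add (ht n)).sub h3).congr ?_
  filter_upwards [eventually_gt_atTop n] with j hj i hi
  rw [fwd_of_lt g hj]
  ring

theorem bwd_c0 {f : T3 → ℝ} (h : ∀ ε > 0, JX.small {x | ε ≤ |f x|}) :
    ∀ ε > 0, JY.small {x | ε ≤ |bwd f x|} := by
  rw [c0X_iff] at h
  rw [c0Y_iff]
  -- the sparse approximants
  have key : ∀ n d, d ≤ n →
      TZ (fun j i => U f j (n - d) i - R j (kk j n) (U f j (n + 1)) i) := by
    intro n d
    induction d with
    | zero =>
      intro _
      refine (h n).congr ?_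
      filter_upwards [eventually_gt_atTop n] with j hj i hi
      rw [Nat.sub_zero, U_of_lt f hj]
      ring
    | succ d ih =>
      intro hd
      have h1 := ih (by omega)
      have h2 : TZ (fun j i => R j (kk j (n - (d + 1))) (U f j (n - d)) i -
          R j (kk j (n - (d + 1))) (R j (kk j n) (U f j (n + 1))) i) :=
        TZ.R (a := fun j => U f j (n - d)) (b := fun j => R j (kk j n) (U f j (n + 1)))
          (fun j => kk j (n - (d + 1))) h1
      refine ((h (n - (d + 1))).add h2).congr ?_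
      filter_upwards [eventually_gt_atTop n] with j hj i hi
      have h3 : n - (d + 1) < j := by omega
      have h4 : n - (d + 1) + 1 = n - d := by omega
      rw [U_of_lt f h3, h4]
      rw [R_eq_self (x := R j (kk j n) (U f j (n + 1)))
        (le_trans (card_supp_R _ _ _) (kk_anti (by omega))) hi]
      ring
  refine ⟨fun n => ?_, fun ε hε m => ?_⟩
  · have h1 := key (n + 1) 0 (by omega)
    have h2 := key (n + 1) 1 (by omega)
    refine (h1.sub h2).congr (Eventually.of_forall (fun j i _ => ?_))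
    rw [bwd_succ, Nat.sub_zero, Nat.add_sub_cancel]
    ring
  · have h1 := key m m le_rfl ε hε
    filter_upwards [h1] with j h2
    rw [Nat.sub_self] at h2
    have h3 : cnt {x | ε ≤ |bwd f x|} j ≤ kk j m := by
      refine le_trans ?_ (card_supp_R j (kk j m) (U f j (m + 1)))
      unfold supp
      refine Finset.card_le_card ?_
      intro l hl
      rw [mem_cset] at hl
      rw [Finset.mem_filter, Finset.mem_range]
      refine ⟨hl.1, ?_⟩
      intro h0
      have h4 := h2 l hl.1
      rw [h0, sub_zero] at h4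
      have h5 : ε ≤ |bwd f (j, 0, l)| := hl.2
      rw [bwd_zero] at h5
      linarith
    calc 2 ^ m * cnt {x | ε ≤ |bwd f x|} j ≤ 2 ^ m * kk j m := Nat.mul_le_mul_left _ h3
      _ ≤ 2 ^ (m + 1) * kk j m := Nat.mul_le_mul_right _ (Nat.pow_le_pow_right (by norm_num) (by omega))
      _ ≤ j := by unfold kk; exact Nat.mul_div_le _ _

end Pool.Agent.H77.UEq
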